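import Mathlib
import Pool.Agent.Helper65.HF.StN

/-!
Module SUB of project HF: the exponential supersolution below the threshold.
-/

namespace Pool.Agent.Helper7.HF

open Pool.Agent.Helper65.HF Pool.Agent.Helper45

theorem sub_event (n : ℕ) (c : ℝ) : ∃ M0 : ℕ, ∀ K : ℕ, M0 ≤ K → c * Real.log K ^ n ≤ K := by
  have h := (Real.isLittleO_pow_log_id_atTop (n := n)).def
    (show (0 : ℝ) < 1 / (|c| + 1) by positivity)
  have h' := tendsto_natCast_atTop_atTop (R := ℝ) |>.eventually h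
  obtain ⟨M0, hM0⟩ := Filter.eventually_atTop.1 h'
  refine ⟨M0, fun K hK => ?_⟩
  have h1 := hM0 K hK
  simp only [id, Real.norm_eq_abs, Nat.abs_cast] at h1
  have h2 : c * Real.log K ^ n ≤ |c| * |Real.log K ^ n| := by
    rw [← abs_mul]
    exact le_abs_self _
  have h3 : |c| * |Real.log K ^ n| ≤ (|c| + 1) * (1 / (|c| + 1) * K) :=
    mul_le_mul (by linarith) h1 (abs_nonneg _) (by positivity)
  have h4 : (|c| + 1) * (1 / (|c| + 1) * (K : ℝ)) = K := by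
    field_simp
  linarith

theorem sub_claim (j d : ℕ) (cs C1 C2 θ t0 : ℝ) (m1 K : ℕ) (e a b G : ℕ → ℕ → ℝ) (L : ℝ)
    (hj : 2 ≤ j) (hjd : j < d) (hcs : 0 < cs) (hC2 : 1 ≤ C2) (hθ : 0 < θ) (ht0 : 0 < t0)
    (hL : 1 ≤ L) (hLK : Real.sqrt (Real.log K) = L) (hm3 : 3 ≤ m1)
    (hm : C2 ≤ θ * cs * (1 / 2) ^ j * Real.sqrt m1) (hK1 : 1 ≤ K)
    (hA2 : L / ((K : ℝ) ^ (d - 1) * Real.sqrt K) * (C2 * ((m1 : ℝ) + L ^ 2 / t0 ^ 2) ^ d) ≤ 1)
    (h1 : ∀ M r : ℕ, m1 ≤ M → (r : ℝ) ≤ cs * (M : ℝ) ^ j → G M r - G M (r + 1) = a M r)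
    (h2 : ∀ M r : ℕ, m1 ≤ M → (r : ℝ) ≤ cs * (M : ℝ) ^ j → G M r - G (M - 1) r = b M r)
    (h3 : ∀ M r : ℕ, m1 ≤ M → (r : ℝ) ≤ cs * (M : ℝ) ^ j → 0 < a M r)
    (h4 : ∀ M r : ℕ, 1 ≤ M → (r : ℝ) ≤ cs * (M : ℝ) ^ j → G M r ≤ C2 * (M : ℝ) ^ d)
    (h5 : ∀ M r : ℕ, m1 ≤ M → (r : ℝ) ≤ cs * (M : ℝ) ^ j → cs * ((M : ℝ) - 1) ^ j < r →
      G M r ≤ C2 * (M : ℝ) ^ (d - 1))
    (h6 : ∀ M : ℕ, e M 0 ≤ 0)
    (h7 : ∀ M r : ℕ, 1 ≤ M → (r : ℝ) ≤ cs * (M : ℝ) ^ j → e M r ≤ C2 * (M : ℝ) ^ d)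
    (h8 : ∀ M r : ℕ, m1 ≤ M → (r : ℝ) + 1 ≤ cs * (M : ℝ) ^ j →
      (e M (r + 1) - e M r) * (b M r - C1 * wd (d - 2) M) ≤ (e (M - 1) r - e M r) * a M r)
    (hstep : ∀ M r : ℕ, m1 ≤ M → M ≤ K → (r : ℝ) ≤ cs * (M : ℝ) ^ j →
      ∀ (b' W A g x y0 y1 : ℝ), L ≤ t0 * Real.sqrt M → b' ≤ b M r → 0 ≤ W →
      W ≤ (M : ℝ) ^ (d - 2) * (Real.sqrt M * L) → 0 < A →
      (x - y1) * (b M r - C1 * W) ≤ (y0 - y1) * a M r →
      y1 ≤ A * Real.exp (-(L / ((K : ℝ) ^ (d - 1) * Real.sqrt K) * g)) →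
      y0 ≤ A * Real.exp (-(L / ((K : ℝ) ^ (d - 1) * Real.sqrt K) * (g - b'))) →
      x ≤ A * Real.exp (-(L / ((K : ℝ) ^ (d - 1) * Real.sqrt K) *
        (g - (a M r + θ * L * ((M : ℝ) ^ (d - j - 1) * Real.sqrt M)))))) :
    ∀ r M : ℕ, 1 ≤ M → M ≤ K → (r : ℝ) ≤ cs * (M : ℝ) ^ j →
      e M r ≤ 3 * C2 * (K : ℝ) ^ d * Real.exp (-(L / ((K : ℝ) ^ (d - 1) * Real.sqrt K) *
        (G M r - θ * L * (r * ((M : ℝ) ^ (d - j - 1) * Real.sqrt M))))) := by
  have hC20 : (0 : ℝ) < C2 := by linarith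
  have hK0 : (0 : ℝ) < K := by
    have : (1 : ℝ) ≤ K := by exact_mod_cast hK1
    linarith
  have hApos : (0 : ℝ) < 3 * C2 * (K : ℝ) ^ d := by positivity
  have hμ0 : 0 ≤ L / ((K : ℝ) ^ (d - 1) * Real.sqrt K) := by positivity
  set μ : ℝ := L / ((K : ℝ) ^ (d - 1) * Real.sqrt K) with hμ
  -- the easy bound
  have easy : ∀ M r : ℕ, 1 ≤ M → M ≤ K → (r : ℝ) ≤ cs * (M : ℝ) ^ j → ∀ y : ℝ, μ * y ≤ 1 →
      e M r ≤ 3 * C2 * (K : ℝ) ^ d * Real.exp (-(μ * y)) := by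
    intro M r hM hMK hr y hy
    have e1 : e M r ≤ C2 * (K : ℝ) ^ d := by
      refine (h7 M r hM hr).trans ?_
      refine mul_le_mul_of_nonneg_left ?_ hC20.le
      exact pow_le_pow_left₀ (by positivity) (by exact_mod_cast hMK) d
    have e2 : Real.exp (-1) ≤ Real.exp (-(μ * y)) := Real.exp_le_exp.2 (by linarith)
    have e3 : (1 : ℝ) / 3 ≤ Real.exp (-1) := by
      rw [Real.exp_neg, one_div]
      apply inv_anti₀ (Real.exp_pos 1)
      have := Real.exp_one_lt_d9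
      linarith
    have e4 : C2 * (K : ℝ) ^ d = 3 * C2 * (K : ℝ) ^ d * (1 / 3) := by ring
    rw [e4] at e1
    refine e1.trans ?_
    exact mul_le_mul_of_nonneg_left (e3.trans e2) hApos.le
  intro r
  induction r with
  | zero =>
    intro M _ _ _
    refine (h6 M).trans ?_
    positivity
  | succ r ih =>
    intro M hM hMK hr
    have hrr : (r : ℝ) + 1 ≤ cs * (M : ℝ) ^ j := by
      have := hr
      push_cast at this
      exact this
    have hr0 : (r : ℝ) ≤ cs * (M : ℝ) ^ j := by linarith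
    have hM0 : (0 : ℝ) < M := by
      have : (1 : ℝ) ≤ M := by exact_mod_cast hM
      linarith
    have hh0 : 0 ≤ (M : ℝ) ^ (d - j - 1) * Real.sqrt M := by positivity
    by_cases hc1 : G M (r + 1) - θ * L * (((r + 1 : ℕ) : ℝ) *
        ((M : ℝ) ^ (d - j - 1) * Real.sqrt M)) ≤ 0
    · refine easy M (r + 1) hM hMK hr _ ?_
      have := mul_nonpos_of_nonneg_of_nonpos hμ0 hc1
      linarith
    push Not at hc1
    by_cases hc2 : (M : ℝ) < m1 + L ^ 2 / t0 ^ 2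
    · refine easy M (r + 1) hM hMK hr _ ?_
      refine le_trans (mul_le_mul_of_nonneg_left ?_ hμ0) hA2
      have e1 : 0 ≤ θ * L * (((r + 1 : ℕ) : ℝ) * ((M : ℝ) ^ (d - j - 1) * Real.sqrt M)) := by
        positivity
      have e2 := h4 M (r + 1) hM hr
      have e3 : C2 * (M : ℝ) ^ d ≤ C2 * ((m1 : ℝ) + L ^ 2 / t0 ^ 2) ^ d :=
        mul_le_mul_of_nonneg_left (pow_le_pow_left₀ hM0.le hc2.le d) hC20.le
      linarith
    push Not at hc2
    have hq0 : 0 ≤ L ^ 2 / t0 ^ 2 := by positivity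
    have hm1M : m1 ≤ M := by
      have : (m1 : ℝ) ≤ M := by linarith
      exact_mod_cast this
    have hm10 : (0 : ℝ) ≤ m1 := Nat.cast_nonneg _
    have hLt : L ≤ t0 * Real.sqrt M := by
      have e1 : L ^ 2 / t0 ^ 2 ≤ M := by linarith
      have e2 : L ^ 2 ≤ M * t0 ^ 2 := by
        rwa [div_le_iff₀ (by positivity)] at e1
      have e3 : L = Real.sqrt (L ^ 2) := by
        rw [Real.sqrt_sq (by linarith)]
      rw [e3]
      have e4 : t0 * Real.sqrt M = Real.sqrt (M * t0 ^ 2) := by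
        rw [Real.sqrt_mul hM0.le, Real.sqrt_sq ht0.le, mul_comm]
      rw [e4]
      exact Real.sqrt_le_sqrt e2
    have hM3 : 3 ≤ M := hm3.trans hm1M
    have hMr3 : (3 : ℝ) ≤ M := by exact_mod_cast hM3
    have hcast : ((M - 1 : ℕ) : ℝ) = (M : ℝ) - 1 := by
      rw [Nat.cast_sub (by omega)]
      simp
    have hsq : 0 ≤ Real.sqrt M := Real.sqrt_nonneg _
    have hrec : G M (r + 1) = G M r - a M r := by
      have := h1 M r hm1M hr0
      linarith
    have ha := h3 M r hm1M hr0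
    have hpow : (M : ℝ) ^ j * (M : ℝ) ^ (d - j - 1) = (M : ℝ) ^ (d - 1) := by
      rw [← pow_add]
      congr 1
      omega
    -- the predecessor is in the range
    have hpre : (r : ℝ) ≤ cs * ((M - 1 : ℕ) : ℝ) ^ j := by
      rw [hcast]
      by_contra hcon
      push Not at hcon
      have e1 := h5 M r hm1M hr0 hcon
      have e2 : cs * ((M : ℝ) * (1 / 2)) ^ j ≤ r := by
        refine le_trans ?_ hcon.le
        refine mul_le_mul_of_nonneg_left ?_ hcs.le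
        exact pow_le_pow_left₀ (by positivity) (by linarith) j
      have e3 : C2 ≤ θ * cs * (1 / 2) ^ j * Real.sqrt M := by
        refine hm.trans ?_
        refine mul_le_mul_of_nonneg_left ?_ (by positivity)
        exact Real.sqrt_le_sqrt (by exact_mod_cast hm1M)
      have e4 : C2 * (M : ℝ) ^ (d - 1) ≤
          θ * cs * (1 / 2) ^ j * Real.sqrt M * (M : ℝ) ^ (d - 1) :=
        mul_le_mul_of_nonneg_right e3 (by positivity)
      have e5 : θ * cs * (1 / 2) ^ j * Real.sqrt M * (M : ℝ) ^ (d - 1) =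
          θ * (cs * ((M : ℝ) * (1 / 2)) ^ j * ((M : ℝ) ^ (d - j - 1) * Real.sqrt M)) := by
        rw [← hpow, mul_pow]
        ring
      have e6 : θ * (cs * ((M : ℝ) * (1 / 2)) ^ j * ((M : ℝ) ^ (d - j - 1) * Real.sqrt M)) ≤
          θ * (r * ((M : ℝ) ^ (d - j - 1) * Real.sqrt M)) :=
        mul_le_mul_of_nonneg_left (mul_le_mul_of_nonneg_right e2 hh0) hθ.le
      have e7 : θ * (r * ((M : ℝ) ^ (d - j - 1) * Real.sqrt M)) ≤
          θ * L * (r * ((M : ℝ) ^ (d - j - 1) * Real.sqrt M)) := by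
        have : 0 ≤ θ * (r * ((M : ℝ) ^ (d - j - 1) * Real.sqrt M)) := by positivity
        have := mul_le_mul_of_nonneg_left hL this
        linarith
      have e8 : θ * L * (r * ((M : ℝ) ^ (d - j - 1) * Real.sqrt M)) ≤
          θ * L * (((r + 1 : ℕ) : ℝ) * ((M : ℝ) ^ (d - j - 1) * Real.sqrt M)) := by
        refine mul_le_mul_of_nonneg_left (mul_le_mul_of_nonneg_right ?_ hh0) (by positivity)
        push_cast
        linarith
      rw [hrec] at hc1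
      linarith
    have i1 := ih M hM hMK hr0
    have i2 := ih (M - 1) (by omega) (by omega) hpre
    have hmono : ((M - 1 : ℕ) : ℝ) ^ (d - j - 1) * Real.sqrt ((M - 1 : ℕ) : ℝ) ≤
        (M : ℝ) ^ (d - j - 1) * Real.sqrt M := by
      have e0 : ((M - 1 : ℕ) : ℝ) ≤ (M : ℝ) := by
        rw [hcast]
        linarith
      refine mul_le_mul ?_ (Real.sqrt_le_sqrt e0) (Real.sqrt_nonneg _) (by positivity)
      exact pow_le_pow_left₀ (Nat.cast_nonneg _) e0 _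
    have hfin := hstep M r hm1M hMK hr0
      ((G M r - θ * L * (r * ((M : ℝ) ^ (d - j - 1) * Real.sqrt M))) -
        (G (M - 1) r - θ * L * (r * (((M - 1 : ℕ) : ℝ) ^ (d - j - 1) *
          Real.sqrt ((M - 1 : ℕ) : ℝ))))) (wd (d - 2) M) (3 * C2 * (K : ℝ) ^ d)
      (G M r - θ * L * (r * ((M : ℝ) ^ (d - j - 1) * Real.sqrt M)))
      (e M (r + 1)) (e (M - 1) r) (e M r) hLt ?_ ?_ ?_ hApos (h8 M r hm1M hrr) i1 ?_
    · refine hfin.trans (le_of_eq ?_)
      congr 3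
      rw [hrec]
      push_cast
      ring
    · have e1 := h2 M r hm1M hr0
      have e2 : θ * L * (r * (((M - 1 : ℕ) : ℝ) ^ (d - j - 1) *
          Real.sqrt ((M - 1 : ℕ) : ℝ))) ≤
          θ * L * (r * ((M : ℝ) ^ (d - j - 1) * Real.sqrt M)) :=
        mul_le_mul_of_nonneg_left (mul_le_mul_of_nonneg_left hmono (Nat.cast_nonneg _))
          (by positivity)
      linarith
    · unfold wd
      positivity
    · unfold wd
      refine mul_le_mul_of_nonneg_left ?_ (by positivity)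
      rw [Real.sqrt_mul hM0.le, ← hLK]
      refine mul_le_mul_of_nonneg_left ?_ hsq
      refine Real.sqrt_le_sqrt ?_
      exact Real.log_le_log hM0 (by exact_mod_cast hMK)
    · refine i2.trans (le_of_eq ?_)
      congr 3
      ring

theorem hSUB : sSUB := by
  intro hSB1 j d cs c1 C1 C2 M1 e a b G hj hjd hcs hc1 hC1 hC2 h1 h2 h3 h4 h5 h6 h7 h8
  have hC20 : (0 : ℝ) < C2 := by linarith
  obtain ⟨θ, t0, M1', hθ, ht0, hstep⟩ := hSB1 j d c1 C1 C2 hj hjd hc1 hC1 hC20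
  obtain ⟨m0, hm0⟩ : ∃ m0 : ℕ, C2 ≤ θ * cs * (1 / 2) ^ j * Real.sqrt m0 := by
    obtain ⟨m0, hm0⟩ := exists_nat_ge ((C2 / (θ * cs * (1 / 2) ^ j)) ^ 2)
    refine ⟨m0, ?_⟩
    have hpos : 0 < θ * cs * (1 / 2) ^ j := by positivity
    have e1 : C2 / (θ * cs * (1 / 2) ^ j) ≤ Real.sqrt m0 := by
      refine Real.le_sqrt_of_sq_le ?_
      exact hm0
    have e2 := mul_le_mul_of_nonneg_left e1 hpos.le
    rw [mul_div_cancel₀ _ hpos.ne'] at e2
    exact e2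
  set m1 : ℕ := max (max M1 M1') (max 3 m0) with hm1def
  have hmM1 : M1 ≤ m1 := le_trans (le_max_left _ _) (le_max_left _ _)
  have hmM1' : M1' ≤ m1 := le_trans (le_max_right _ _) (le_max_left _ _)
  have hm3 : 3 ≤ m1 := le_trans (le_max_left _ _) (le_max_right _ _)
  have hmm0 : m0 ≤ m1 := le_trans (le_max_right _ _) (le_max_right _ _)
  have hm : C2 ≤ θ * cs * (1 / 2) ^ j * Real.sqrt m1 := by
    refine hm0.trans ?_
    refine mul_le_mul_of_nonneg_left ?_ (by positivity)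
    exact Real.sqrt_le_sqrt (by exact_mod_cast hmm0)
  obtain ⟨Ma, hMa⟩ := sub_event (d + 1) (C2 * ((m1 : ℝ) + 1 / t0 ^ 2) ^ d)
  obtain ⟨Mb, hMb⟩ := exists_nat_gt (3 * C2)
  refine ⟨θ * cs + d + 1, max (max Ma Mb) m1, ?_⟩
  intro K hK r hr hG
  have hKa : Ma ≤ K := le_trans (le_trans (le_max_left _ _) (le_max_left _ _)) hK
  have hKb : Mb ≤ K := le_trans (le_trans (le_max_right _ _) (le_max_left _ _)) hK
  have hKm : m1 ≤ K := le_trans (le_max_right _ _) hK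
  have hK3 : 3 ≤ K := hm3.trans hKm
  have hKr3 : (3 : ℝ) ≤ K := by exact_mod_cast hK3
  have hK0 : (0 : ℝ) < K := by linarith
  have hlog : 1 ≤ Real.log K := by
    rw [Real.le_log_iff_exp_le hK0]
    have := Real.exp_one_lt_d9
    linarith
  have hlog0 : 0 ≤ Real.log K := by linarith
  have hL : 1 ≤ Real.sqrt (Real.log K) := by
    rw [Real.one_le_sqrt]
    exact hlog
  have hLsq : Real.sqrt (Real.log K) ^ 2 = Real.log K := Real.sq_sqrt hlog0
  have hLle : Real.sqrt (Real.log K) ≤ Real.log K := by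
    have h := mul_le_mul_of_nonneg_left hL (Real.sqrt_nonneg (Real.log K))
    rw [← sq, hLsq, mul_one] at h
    exact h
  have hsK : 1 ≤ Real.sqrt K := by
    rw [Real.one_le_sqrt]
    linarith
  have hA2 : Real.sqrt (Real.log K) / ((K : ℝ) ^ (d - 1) * Real.sqrt K) *
      (C2 * ((m1 : ℝ) + Real.sqrt (Real.log K) ^ 2 / t0 ^ 2) ^ d) ≤ 1 := by
    have hden : (K : ℝ) ≤ (K : ℝ) ^ (d - 1) * Real.sqrt K := by
      have e1 : (K : ℝ) ^ 1 ≤ (K : ℝ) ^ (d - 1) :=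
        pow_le_pow_right₀ (by linarith) (by omega)
      rw [pow_one] at e1
      calc (K : ℝ) = K * 1 := by ring
        _ ≤ (K : ℝ) ^ (d - 1) * Real.sqrt K := mul_le_mul e1 hsK zero_le_one (by positivity)
    have hdpos : 0 < (K : ℝ) ^ (d - 1) * Real.sqrt K := lt_of_lt_of_le hK0 hden
    rw [div_mul_eq_mul_div, div_le_one hdpos]
    refine le_trans ?_ hden
    refine le_trans ?_ (hMa K hKa)
    rw [hLsq]
    have e2 : (m1 : ℝ) + Real.log K / t0 ^ 2 ≤ ((m1 : ℝ) + 1 / t0 ^ 2) * Real.log K := by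
      have : (m1 : ℝ) * 1 ≤ m1 * Real.log K :=
        mul_le_mul_of_nonneg_left hlog (Nat.cast_nonneg _)
      have e3 : ((m1 : ℝ) + 1 / t0 ^ 2) * Real.log K = m1 * Real.log K + Real.log K / t0 ^ 2 := by
        ring
      rw [e3]
      linarith
    have e4 : ((m1 : ℝ) + Real.log K / t0 ^ 2) ^ d ≤
        (((m1 : ℝ) + 1 / t0 ^ 2) * Real.log K) ^ d :=
      pow_le_pow_left₀ (by positivity) e2 d
    have e5 : C2 * ((m1 : ℝ) + 1 / t0 ^ 2) ^ d * Real.log K ^ (d + 1) =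
        Real.log K * (C2 * (((m1 : ℝ) + 1 / t0 ^ 2) * Real.log K) ^ d) := by
      rw [mul_pow, pow_succ]
      ring
    rw [e5]
    refine mul_le_mul hLle (mul_le_mul_of_nonneg_left e4 hC20.le) (by positivity) hlog0
  have hclaim := sub_claim j d cs C1 C2 θ t0 m1 K e a b G (Real.sqrt (Real.log K)) hj hjd hcs hC2
    hθ ht0 hL rfl hm3 hm (by omega) hA2
    (fun M r hM hr => h1 M r (hmM1.trans hM) hr)
    (fun M r hM hr => h2 M r (hmM1.trans hM) hr)
    (fun M r hM hr => (h3 M r (hmM1.trans hM) hr).2.2.1)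
    h4 (fun M r hM hr hr' => h5 M r (hmM1.trans hM) hr hr') h6 h7
    (fun M r hM hr => h8 M r (hmM1.trans hM) hr)
    (by
      intro M r hM hMK hr b' W A g x y0 y1 q1 q2 q3 q4 q5 q6 q7 q8
      obtain ⟨p1, p2, p3, p4⟩ := h3 M r (hmM1.trans hM) hr
      exact hstep M K (Real.sqrt (Real.log K)) (a M r) (b M r) b' W A g x y0 y1
        (hmM1'.trans hM) hMK (Real.sqrt_nonneg _) q1 p1 p2 p3 p4 q2 q3 q4 q5 q6 q7 q8)
    r K (by omega) le_rfl hr
  refine lt_of_le_of_lt hclaim ?_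
  -- final computation
  have hwd : wd (d - 1) K = (K : ℝ) ^ (d - 1) * Real.sqrt K * Real.sqrt (Real.log K) := by
    unfold wd
    rw [Real.sqrt_mul hK0.le]
    ring
  have hpow : (K : ℝ) ^ j * (K : ℝ) ^ (d - j - 1) = (K : ℝ) ^ (d - 1) := by
    rw [← pow_add]
    congr 1
    omega
  have f1 : (r : ℝ) * ((K : ℝ) ^ (d - j - 1) * Real.sqrt K) ≤
      cs * ((K : ℝ) ^ (d - 1) * Real.sqrt K) := by
    have := mul_le_mul_of_nonneg_right hr
      (show 0 ≤ (K : ℝ) ^ (d - j - 1) * Real.sqrt K by positivity)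
    refine this.trans (le_of_eq ?_)
    rw [← hpow]
    ring
  have f2 : θ * Real.sqrt (Real.log K) * ((r : ℝ) * ((K : ℝ) ^ (d - j - 1) * Real.sqrt K)) ≤
      θ * Real.sqrt (Real.log K) * (cs * ((K : ℝ) ^ (d - 1) * Real.sqrt K)) :=
    mul_le_mul_of_nonneg_left f1 (by positivity)
  have f3 : ((d : ℝ) + 1) * Real.sqrt (Real.log K) * ((K : ℝ) ^ (d - 1) * Real.sqrt K) ≤
      G K r - θ * Real.sqrt (Real.log K) * ((r : ℝ) * ((K : ℝ) ^ (d - j - 1) * Real.sqrt K)) := by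
    rw [hwd] at hG
    have e1 : (θ * cs + d + 1) * ((K : ℝ) ^ (d - 1) * Real.sqrt K * Real.sqrt (Real.log K)) =
        ((d : ℝ) + 1) * Real.sqrt (Real.log K) * ((K : ℝ) ^ (d - 1) * Real.sqrt K) +
        θ * Real.sqrt (Real.log K) * (cs * ((K : ℝ) ^ (d - 1) * Real.sqrt K)) := by
      ring
    rw [e1] at hG
    linarith
  have hdpos : 0 < (K : ℝ) ^ (d - 1) * Real.sqrt K := by positivity
  have f4 : ((d : ℝ) + 1) * Real.log K ≤ Real.sqrt (Real.log K) /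
      ((K : ℝ) ^ (d - 1) * Real.sqrt K) * (G K r - θ * Real.sqrt (Real.log K) *
        ((r : ℝ) * ((K : ℝ) ^ (d - j - 1) * Real.sqrt K))) := by
    have e1 := mul_le_mul_of_nonneg_left f3
      (show 0 ≤ Real.sqrt (Real.log K) / ((K : ℝ) ^ (d - 1) * Real.sqrt K) by positivity)
    refine le_trans (le_of_eq ?_) e1
    rw [div_mul_eq_mul_div, eq_div_iff hdpos.ne']
    nth_rewrite 1 [← hLsq]
    ring
  have f5 : Real.exp (-(Real.sqrt (Real.log K) /
      ((K : ℝ) ^ (d - 1) * Real.sqrt K) * (G K r - θ * Real.sqrt (Real.log K) *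
        ((r : ℝ) * ((K : ℝ) ^ (d - j - 1) * Real.sqrt K))))) ≤ ((K : ℝ) ^ (d + 1))⁻¹ := by
    have e1 : ((K : ℝ) ^ (d + 1))⁻¹ = Real.exp (-(((d : ℝ) + 1) * Real.log K)) := by
      rw [Real.exp_neg]
      congr 1
      have : ((d : ℝ) + 1) * Real.log K = Real.log K * ((d + 1 : ℕ) : ℝ) := by
        push_cast
        ring
      rw [this, ← Real.rpow_natCast, Real.rpow_def_of_pos hK0]
    rw [e1]
    exact Real.exp_le_exp.2 (by linarith)
  have f6 : 3 * C2 * (K : ℝ) ^ d * ((K : ℝ) ^ (d + 1))⁻¹ = 3 * C2 / K := by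
    rw [pow_succ]
    field_simp
  have f7 : 3 * C2 / (K : ℝ) < 1 := by
    rw [div_lt_one hK0]
    have : (Mb : ℝ) ≤ K := by exact_mod_cast hKb
    linarith
  refine lt_of_le_of_lt (mul_le_mul_of_nonneg_left f5 (by positivity)) ?_
  rw [f6]
  exact f7

end Pool.Agent.Helper7.HF
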